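import Pool.Agent.H57.SQ.Lab

/-!
# The class of the cut families

`SqC S k x`: the families `cut F k ⌊x J⌋`, conditioned on large events of the members of `S` for
which they are regular. `sq_ne`: the class is nonempty. `sq_mem`: the properties of the members.
`sq_clx`: it is a class as in the exactness theorem, with the same numbers and with the slack `2`.
-/

set_option autoImplicit false

namespace Pool.SQ

open Finset Real MvPolynomial
open Pool.Agent.H49.Ent Pool.Agent.H32.Dense Pool.STK Pool.KA Pool.KSAT Pool.K2S Pool.PB Pool.S6C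
open Pool.GEN Pool.ZCL

variable {n : ℕ}

/-! ### The class -/

/-- **The members of the class of the cut families.** -/
inductive SqSt (S : PCl n) (k : Fin n) (x τ : ℝ) (J : ℕ) : ∀ G : Fam n J, (G.Ω → Prop) → Prop
  | mk (F : Fam n J) (A B : F.Ω → Prop) (h0 : 0 ≤ τ) (hS : S.St τ J F A)
      (hl : IsLaw (Pool.Agent.H49.Ent.cond F.p A True))
      (hTr : ((cut F k ⌊x * J⌋₊).res A True hl).Tr)
      (hTm : ((cut F k ⌊x * J⌋₊).res A True hl).Tm (τ * J))
      (hRb : ((cut F k ⌊x * J⌋₊).res A True hl).Rb (τ * J))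
      (hB : Sub B A) (hP : Real.exp (-(τ * J)) * Pe F.p A ≤ Pe F.p B) :
      SqSt S k x τ J ((cut F k ⌊x * J⌋₊).res A True hl) B

theorem rb_mono {J : ℕ} {F : Fam n J} {e e' : ℝ} (h : F.Rb e) (he : e ≤ e') : F.Rb e' := by
  obtain ⟨⟨a1, b1⟩, ⟨a2, b2⟩, ⟨a3, b3⟩, ⟨a4, b4⟩, a5, b5⟩ := h
  exact ⟨⟨a1, RTY.Rg_mono b1 he⟩, ⟨a2, RTY.Rg_mono b2 he⟩, ⟨a3, RTY.Rg_mono b3 he⟩, ⟨a4, RTY.Rg_mono b4 he⟩, a5,
    RTY.Rg_mono b5 he⟩

theorem tm_mono {J : ℕ} {F : Fam n J} {e e' : ℝ} (h : F.Tm e) (he : e ≤ e') : F.Tm e' := by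
  unfold Fam.Tm at h ⊢
  linarith

/-- A sub-event in the conditional law. -/
theorem pe_cond_sub {Ω : Type} [Fintype Ω] {p : Ω → ℝ} {A B : Ω → Prop} (hB : Sub B A) :
    Pe (Pool.Agent.H49.Ent.cond p A True) B = Pe p B / Pe p A := by
  rw [Pe_cond]
  have e : (fun ω => A ω ∧ B ω) = B := by
    funext ω
    exact propext ⟨fun h => h.2, fun h => ⟨hB ω h, h⟩⟩
  rw [e]

theorem cond_sub {Ω : Type} [Fintype Ω] {p : Ω → ℝ} {A B : Ω → Prop}
    (hl : IsLaw (Pool.Agent.H49.Ent.cond p A True)) (hB : Sub B A) :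
    Pool.Agent.H49.Ent.cond (Pool.Agent.H49.Ent.cond p A True) B True =
      Pool.Agent.H49.Ent.cond p B True := by
  rw [cond_part_eq hl B]
  have e : (fun ω => A ω ∧ B ω) = B := by
    funext ω
    exact propext ⟨fun h => h.2, fun h => ⟨hB ω h, h⟩⟩
  rw [e]

/-- **The class of the cut families.** -/
def SqC (S : PCl n) (k : Fin n) (x : ℝ) : PCl n where
  St τ J := SqSt S k x τ J
  mono := by
    rintro τ τ' J F A h ⟨F, A, B, h0, hS, hl, hTr, hTm, hRb, hB, hP⟩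
    have hJ : (0 : ℝ) ≤ J := Nat.cast_nonneg J
    have h1 : τ * J ≤ τ' * J := mul_le_mul_of_nonneg_right h hJ
    exact ⟨F, A, B, h0.trans h, S.mono h hS, hl, hTr, tm_mono hTm h1, rb_mono hRb h1, hB,
      (mul_le_mul_of_nonneg_right (Real.exp_le_exp.2 (neg_le_neg h1)) (Pe_nonneg F.isLaw A)).trans
        hP⟩
  res := by
    rintro τ τ' J F A B' h ⟨F, A, B, h0, hS, hl, hTr, hTm, hRb, hB, hP⟩ hB' hP'
    have hJ : (0 : ℝ) ≤ J := Nat.cast_nonneg J
    have h1 : τ * (J : ℝ) ≤ (τ + τ') * J := mul_le_mul_of_nonneg_right (by linarith) hJ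
    refine ⟨F, A, B', by linarith, S.mono (by linarith) hS, hl, hTr, tm_mono hTm h1,
      rb_mono hRb h1, hB'.trans hB, ?_⟩
    have hA0 : 0 ≤ Pe F.p A := Pe_nonneg F.isLaw A
    have e1 : Pe ((cut F k ⌊x * J⌋₊).res A True hl).p B = Pe F.p B / Pe F.p A :=
      pe_cond_sub (p := F.p) hB
    have e2 : Pe ((cut F k ⌊x * J⌋₊).res A True hl).p B' = Pe F.p B' / Pe F.p A :=
      pe_cond_sub (p := F.p) (hB'.trans hB)
    rw [e1, e2] at hP'
    rcases hA0.eq_or_lt with hA | hA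
    · rw [← hA, mul_zero]
      exact Pe_nonneg F.isLaw B'
    · rw [← mul_div_assoc, div_le_div_iff_of_pos_right hA] at hP'
      refine le_trans ?_ hP'
      refine le_trans (le_of_eq ?_) (mul_le_mul_of_nonneg_left hP (Real.exp_pos _).le)
      rw [← mul_assoc, ← Real.exp_add]
      congr 2
      ring

/-- **Base statements for the cut families** from base statements of the class. -/
theorem bas_sq {S : PCl n} {k : Fin n} {x : ℝ} {Φ Ψ : Stat n} (J₂ : ℕ) (h : Bas S Φ)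
    (hΨ : ∀ (J : ℕ) (F : Fam n J) (A B : F.Ω → Prop)
      (hl : IsLaw (Pool.Agent.H49.Ent.cond F.p A True)), J₂ ≤ J → Sub B A → Φ J F B →
      Ψ J ((cut F k ⌊x * J⌋₊).res A True hl) B) : Bas (SqC S k x) Ψ := by
  obtain ⟨τ, hτ, J₁, h⟩ := h
  refine ⟨τ / 2, half_pos hτ, max J₁ J₂, ?_⟩
  rintro J hJ F A ⟨F, A, B, h0, hS, hl, hTr, hTm, hRb, hB, hP⟩
  refine hΨ J F A B hl ((le_max_right _ _).trans hJ) hB
    (h J ((le_max_left _ _).trans hJ) F B ?_)
  have h1 := S.res h0 hS hB hP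
  have e : τ / 2 + τ / 2 = τ := by ring
  rwa [e] at h1

/-- The same, with large sub-events. -/
theorem bas_sq' {S : PCl n} {k : Fin n} {x : ℝ} {Φ Ψ : Stat n} (J₂ : ℕ) {C : ℝ} (hC : 1 ≤ C)
    (h : Bas S Φ)
    (hΨ : ∀ (J : ℕ) (F : Fam n J) (A B : F.Ω → Prop)
      (hl : IsLaw (Pool.Agent.H49.Ent.cond F.p A True)), J₂ ≤ J → Sub B A →
      (∀ B' : F.Ω → Prop, Sub B' B → Pe F.p B ≤ C * Pe F.p B' → Φ J F B') →
      Ψ J ((cut F k ⌊x * J⌋₊).res A True hl) B) : Bas (SqC S k x) Ψ := by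
  obtain ⟨τ, hτ, J₁, h⟩ := h
  obtain ⟨J₃, hJ₃⟩ := Pool.S6K.exp_small (half_pos hτ) hC
  refine ⟨τ / 4, by positivity, max (max J₁ J₃) J₂, ?_⟩
  rintro J hJ F A ⟨F, A, B, h0, hS, hl, hTr, hTm, hRb, hB, hP⟩
  have hJ1 : J₁ ≤ J := (le_max_left _ _).trans ((le_max_left _ _).trans hJ)
  have hJ3 : J₃ ≤ J := (le_max_right _ _).trans ((le_max_left _ _).trans hJ)
  refine hΨ J F A B hl ((le_max_right _ _).trans hJ) hB fun B' hB' hPB => h J hJ1 F B' ?_
  have h1 := S.res h0 hS hB hP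
  have h2 : S.St (τ / 4 + τ / 4 + τ / 2) J F B' := by
    refine S.res (by positivity) h1 hB' ?_
    have h3 := hJ₃ J hJ3
    rw [le_div_iff₀ (by linarith)] at h3
    calc Real.exp (-(τ / 2 * J)) * Pe F.p B ≤ Real.exp (-(τ / 2 * J)) * (C * Pe F.p B') :=
          mul_le_mul_of_nonneg_left hPB (Real.exp_pos _).le
      _ = (Real.exp (-(τ / 2 * J)) * C) * Pe F.p B' := by ring
      _ ≤ 1 * Pe F.p B' := mul_le_mul_of_nonneg_right h3 (Pe_nonneg F.isLaw B')
      _ = _ := one_mul _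
  have e : τ / 4 + τ / 4 + τ / 2 = τ := by ring
  rwa [e] at h2

/-! ### The class is nonempty -/

/-- Two restrictions with the same law. -/
theorem res_eq {J : ℕ} (F : Fam n J) {κ κ' : Type} (c : F.Ω → κ) (v : κ)
    (h : IsLaw (Pool.Agent.H49.Ent.cond F.p c v)) (A : F.Ω → Prop)
    (hA : IsLaw (Pool.Agent.H49.Ent.cond F.p A True)) (c' : F.Ω → κ') (v' : κ')
    (h' : IsLaw (Pool.Agent.H49.Ent.cond (Pool.Agent.H49.Ent.cond F.p A True) c' v'))
    (e : Pool.Agent.H49.Ent.cond (Pool.Agent.H49.Ent.cond F.p A True) c' v' =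
      Pool.Agent.H49.Ent.cond F.p c v) :
    (F.res A True hA).res c' v' h' = F.res c v h := by
  unfold Fam.res
  congr 1

theorem law_eq_Pe {Ω κ : Type} [Fintype Ω] (q : Ω → ℝ) (c : Ω → κ) (v : κ) :
    law q c v = Pe q (fun ω => c ω = v) := by
  classical
  unfold law
  refine Finset.sum_congr rfl fun ω _ => ?_
  by_cases h : c ω = v
  · rw [if_pos h, if_pos (eq_true h)]
  · rw [if_neg h, if_neg (fun h' => h (of_eq_true h'))]

theorem cond_eq_True {Ω κ : Type} [Fintype Ω] (q : Ω → ℝ) (c : Ω → κ) (v : κ) :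
    Pool.Agent.H49.Ent.cond q c v = Pool.Agent.H49.Ent.cond q (fun ω => c ω = v) True := by
  classical
  funext ω
  have h1 := law_eq_Pe q c v
  unfold Pool.Agent.H49.Ent.cond
  by_cases h : c ω = v
  · rw [if_pos h, if_pos (eq_true h), h1]
  · rw [if_neg h, if_neg (fun h' => h (of_eq_true h'))]

/-- One of the good parts is large. -/
theorem good_part {Ω ζ : Type} [Fintype Ω] {p : Ω → ℝ} (hp : IsLaw p) {M : ℕ} (Z : Ω → ζ)
    (i : Ω → Fin M) (E : ζ × Fin M → Prop) {z₀ : ζ} (hz : ∀ ω, 0 < p ω → Z ω = z₀)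
    (h : 1 / 2 ≤ Pe p (fun ω => E (Z ω, i ω))) :
    ∃ v, E v ∧ 1 / (2 * (M : ℝ) + 1) ≤ law p (fun ω => (Z ω, i ω)) v := by
  classical
  by_contra hcon
  push Not at hcon
  have hM : (0 : ℝ) ≤ M := Nat.cast_nonneg M
  have h1 : Pe p (fun ω => E (Z ω, i ω)) ≤
      ∑ j : Fin M, if E (z₀, j) then law p (fun ω => (Z ω, i ω)) (z₀, j) else 0 := by
    have e1 : ∀ j : Fin M, (if E (z₀, j) then law p (fun ω => (Z ω, i ω)) (z₀, j) else 0) =
        ∑ ω, if E (z₀, j) then (if (Z ω, i ω) = (z₀, j) then p ω else 0) else 0 := by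
      intro j
      by_cases hj : E (z₀, j)
      · simp only [if_pos hj]
        unfold law
        exact Finset.sum_congr rfl fun ω _ => by congr
      · simp only [if_neg hj, Finset.sum_const_zero]
    rw [Finset.sum_congr rfl fun j _ => e1 j, Finset.sum_comm, Pe_eq]
    refine Finset.sum_le_sum fun ω _ => ?_
    have hnn : ∀ j : Fin M, 0 ≤
        (if E (z₀, j) then (if (Z ω, i ω) = (z₀, j) then p ω else 0) else 0) := by
      intro j
      split_ifs
      · exact hp.nonneg ω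
      · exact le_rfl
      · exact le_rfl
    rcases (hp.nonneg ω).eq_or_lt with h0 | h0
    · rw [← h0, ite_self]
      refine Finset.sum_nonneg fun j _ => ?_
      have := hnn j
      rwa [← h0] at this
    · refine le_trans ?_ (Finset.single_le_sum (f := fun j : Fin M =>
        if E (z₀, j) then (if (Z ω, i ω) = (z₀, j) then p ω else 0) else 0)
        (fun j _ => hnn j) (Finset.mem_univ (i ω)))
      have e2 := hz ω h0
      simp only [e2, if_true]
      exact le_rfl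
  have h2 : (∑ j : Fin M, if E (z₀, j) then law p (fun ω => (Z ω, i ω)) (z₀, j) else 0) ≤
      ∑ _j : Fin M, 1 / (2 * (M : ℝ) + 1) := by
    refine Finset.sum_le_sum fun j _ => ?_
    by_cases hj : E (z₀, j)
    · rw [if_pos hj]
      exact (hcon _ hj).le
    · rw [if_neg hj]
      positivity
  rw [Finset.sum_const, Finset.card_univ, Fintype.card_fin, nsmul_eq_mul] at h2
  have h3 : (M : ℝ) * (1 / (2 * (M : ℝ) + 1)) < 1 / 2 := by
    rw [mul_one_div, div_lt_div_iff₀ (by positivity) (by norm_num)]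
    linarith
  linarith

/-- **The class of the cut families is nonempty.** -/
theorem sq_ne {S : PCl n} (hne : S.Ne)
    (hmem : ∀ (τ : ℝ) (J : ℕ) (F : Fam n J) (A : F.Ω → Prop), S.St τ J F A → F.Tr ∧
      F.Tm (τ * J) ∧ F.Rb (τ * J) ∧ Real.exp (-(τ * J)) ≤ Pe F.p A ∧ Gd F) (k : Fin n) (x : ℝ) :
    (SqC S k x).Ne := by
  classical
  intro τ hτ J₁
  obtain ⟨M, η, hη, J₂, hreg⟩ := reg_parts n (B := 4 * n + 1) (τ := τ) (ζ := 1 / 2)
    (by positivity) hτ (by norm_num)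
  obtain ⟨τ₀, hτ₀⟩ : ∃ τ₀, τ₀ = min (τ / 2) (η / 6) := ⟨_, rfl⟩
  have t0 : 0 < τ₀ := by rw [hτ₀]; exact lt_min (half_pos hτ) (by positivity)
  have t1 : τ₀ ≤ τ / 2 := by rw [hτ₀]; exact min_le_left _ _
  have t2 : τ₀ ≤ η / 6 := by rw [hτ₀]; exact min_le_right _ _
  have hM : (0 : ℝ) ≤ M := Nat.cast_nonneg M
  obtain ⟨J₃, hJ₃⟩ := Pool.S6K.exp_small (half_pos hτ) (C := 2 * (M : ℝ) + 1) (by linarith)
  obtain ⟨J, hJ, F, A, hS⟩ := hne τ₀ t0 (max (max J₁ J₂) (max J₃ 1))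
  have hJ1 : J₁ ≤ J := (le_max_left _ _).trans ((le_max_left _ _).trans hJ)
  have hJ2 : J₂ ≤ J := (le_max_right _ _).trans ((le_max_left _ _).trans hJ)
  have hJ3 : J₃ ≤ J := (le_max_left _ _).trans ((le_max_right _ _).trans hJ)
  have hJ4 : 1 ≤ J := (le_max_right _ _).trans ((le_max_right _ _).trans hJ)
  have hJr : (0 : ℝ) ≤ J := Nat.cast_nonneg J
  obtain ⟨hTr, hTm, hRb, hPA, hGd⟩ := hmem τ₀ J F A hS
  have hA0 : 0 < Pe F.p A := lt_of_lt_of_le (Real.exp_pos _) hPA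
  have hl : IsLaw (Pool.Agent.H49.Ent.cond F.p A True) := isLaw_cond F.isLaw hA0
  obtain ⟨s, hs⟩ : ∃ s, s = ⌊x * (J : ℝ)⌋₊ := ⟨_, rfl⟩
  -- the time of the cut family
  have hTm₀ : ((cut F k s).res A True hl).Tm (η * J) := by
    have h1 := Pool.STPA.sub_Tm_of_reg hTr hTm hRb hA0 hPA
    unfold Fam.Tm at h1 ⊢
    have h2 : CH (Pool.FLF.Fam.sub F A hA0).p (Pool.FLF.Fam.sub F A hA0).T
        (fun ω => ((Pool.FLF.Fam.sub F A hA0).l ω, (Pool.FLF.Fam.sub F A hA0).Z ω)) =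
        CH (Pool.Agent.H49.Ent.cond F.p A True) F.T (fun ω => (F.l ω, F.Z ω)) :=
      Pool.FLF.sub_CH F.T (fun ω => (F.l ω, F.Z ω))
    rw [h2] at h1
    have h3 : CH (Pool.Agent.H49.Ent.cond F.p A True) F.T (fun ω => (F.l ω, F.Z ω)) ≤
        CH (Pool.Agent.H49.Ent.cond F.p A True) F.T (fun ω => ((cut F k s).l ω, F.Z ω)) := by
      refine CH_mono_cond hl.nonneg fun ω ω' _ _ h => ?_
      have a1 := Prod.ext_iff.1 h
      have a2 : F.u ω = F.u ω' := (Prod.ext_iff.1 a1.1).1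
      have a3 : F.d ω = F.d ω' := (Prod.ext_iff.1 a1.1).2
      refine Prod.ext (Prod.ext ?_ ?_) a1.2
      · change Function.update (F.u ω) k (cu J s (F.u ω k)) =
          Function.update (F.u ω') k (cu J s (F.u ω' k))
        rw [a2]
      · change Function.update (F.d ω) k (cu J s (F.d ω k)) =
          Function.update (F.d ω') k (cu J s (F.d ω' k))
        rw [a3]
    have h4 : 4 * (τ₀ * J) + τ₀ * J + τ₀ * J ≤ η * J := by
      have := mul_le_mul_of_nonneg_right t2 hJr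
      linarith
    have h5 : CH ((cut F k s).res A True hl).p ((cut F k s).res A True hl).T
        (fun ω => (((cut F k s).res A True hl).l ω, ((cut F k s).res A True hl).Z ω)) =
        CH (Pool.Agent.H49.Ent.cond F.p A True) F.T (fun ω => ((cut F k s).l ω, F.Z ω)) := rfl
    rw [h5]
    linarith
  obtain ⟨i, E, hE, hgood⟩ := hreg J hJ2 ((cut F k s).res A True hl) hTm₀
    (gd_lines (G := (cut F k s).res A True hl) (gd_cut hGd k s) hJ4)
  obtain ⟨z₀, hz₀⟩ := hTr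
  obtain ⟨v, hv, hv'⟩ := good_part ((cut F k s).res A True hl).isLaw
    ((cut F k s).res A True hl).Z i E (z₀ := z₀) (fun ω hω => by
      have h1 := (cond_pos_iff F.isLaw.nonneg A True ω).1 hω
      exact hz₀ ω h1.1.ne') (by linarith)
  have hv0 : 0 < law ((cut F k s).res A True hl).p
      (fun ω => (((cut F k s).res A True hl).Z ω, i ω)) v := lt_of_lt_of_le (by positivity) hv'
  obtain ⟨h, g1, g2, g3⟩ := hgood v hv0 hv
  obtain ⟨c, hc⟩ : ∃ c : F.Ω → F.ζ × Fin M, c = fun ω => (F.Z ω, i ω) := ⟨_, rfl⟩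
  obtain ⟨v', hve⟩ : ∃ v' : F.ζ × Fin M, v' = v := ⟨v, rfl⟩
  obtain ⟨A', hA'⟩ : ∃ A' : F.Ω → Prop, A' = fun ω => A ω ∧ c ω = v' := ⟨_, rfl⟩
  have hlaw : law (Pool.Agent.H49.Ent.cond F.p A True) c v' = Pe F.p A' / Pe F.p A := by
    rw [law_eq_Pe, Pe_cond, hA']
  have hv'' : 1 / (2 * (M : ℝ) + 1) ≤ Pe F.p A' / Pe F.p A := by
    rw [← hlaw, hc, hve]
    exact hv'
  rw [le_div_iff₀ hA0, one_div, inv_mul_le_iff₀ (by positivity)] at hv''
  have hA'0 : 0 < Pe F.p A' := by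
    by_contra hcon
    push Not at hcon
    have : (2 * (M : ℝ) + 1) * Pe F.p A' ≤ 0 :=
      mul_nonpos_of_nonneg_of_nonpos (by positivity) hcon
    linarith
  have hl' : IsLaw (Pool.Agent.H49.Ent.cond F.p A' True) := isLaw_cond F.isLaw hA'0
  have hcond : Pool.Agent.H49.Ent.cond (Pool.Agent.H49.Ent.cond F.p A True) c v' =
      Pool.Agent.H49.Ent.cond F.p A' True := by
    have a1 := cond_eq_True (Pool.Agent.H49.Ent.cond F.p A True) c v'
    have a2 := cond_part_eq hl (fun ω => c ω = v')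
    rw [a1, a2, hA']
  have hSA' : S.St τ J F A' := by
    have h1 : S.St (τ₀ + τ / 2) J F A' := by
      refine S.res (half_pos hτ).le hS (fun ω hω => by rw [hA'] at hω; exact hω.1) ?_
      have h3 := hJ₃ J hJ3
      rw [le_div_iff₀ (by positivity)] at h3
      calc Real.exp (-(τ / 2 * J)) * Pe F.p A ≤
            Real.exp (-(τ / 2 * J)) * ((2 * (M : ℝ) + 1) * Pe F.p A') :=
            mul_le_mul_of_nonneg_left hv'' (Real.exp_pos _).le
        _ = (Real.exp (-(τ / 2 * J)) * (2 * (M : ℝ) + 1)) * Pe F.p A' := by ring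
        _ ≤ 1 * Pe F.p A' := mul_le_mul_of_nonneg_right h3 hA'0.le
        _ = _ := one_mul _
    exact S.mono (by linarith) h1
  have hres : ((cut F k s).res A True hl).res
      (fun ω => (((cut F k s).res A True hl).Z ω, i ω)) v h = (cut F k s).res A' True hl' := by
    refine res_eq (cut F k s) A' True hl' A hl _ v h ?_
    have e1 : (fun ω => (((cut F k s).res A True hl).Z ω, i ω)) = c := by rw [hc]; rfl
    rw [e1, ← hve]
    exact hcond
  rw [hres] at g1 g2 g3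
  subst hs
  refine ⟨J, hJ1, (cut F k ⌊x * (J : ℝ)⌋₊).res A' True hl', A',
    ⟨F, A', A', hτ.le, hSA', hl', g1, g2, g3, fun _ h => h, ?_⟩⟩
  have h1 : Real.exp (-(τ * J)) ≤ 1 := by
    rw [Real.exp_le_one_iff]
    have : 0 ≤ τ * (J : ℝ) := by positivity
    linarith
  calc _ ≤ 1 * Pe F.p A' := mul_le_mul_of_nonneg_right h1 hA'0.le
    _ = _ := one_mul _

/-- **The properties of the members.** -/
theorem sq_mem {S : PCl n} {s : Fin n → ℝ} (hs : ∀ j, s j ≤ 1)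
    (hmem : ∀ (τ : ℝ) (J : ℕ) (F : Fam n J) (A : F.Ω → Prop), S.St τ J F A → F.Tr ∧
      F.Tm (τ * J) ∧ F.Rb (τ * J) ∧ Real.exp (-(τ * J)) ≤ Pe F.p A ∧ Gd F) (k : Fin n) (x : ℝ)
    (τ : ℝ) (J : ℕ) (F : Fam n J) (A : F.Ω → Prop) (hA : (SqC S k x).St τ J F A) : F.Tr ∧
      F.Tm (τ * J) ∧ F.Rb (τ * J) ∧ Real.exp (-(τ * J)) ≤ Pe F.p A ∧ Gd F ∧ GraX 0 2 s J F ∧
      Zc F := by
  obtain ⟨F, A, B, h0, hS, hl, hTr, hTm, hRb, hB, hP⟩ := hA
  obtain ⟨h1, h2, h3, h4, h5⟩ := hmem τ J F A hS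
  have hA0 : 0 < Pe F.p A := lt_of_lt_of_le (Real.exp_pos _) h4
  have hG : Gd ((cut F k ⌊x * J⌋₊).res A True hl) := gd_cut h5 k _
  refine ⟨hTr, hTm, hRb, ?_, hG, gra_two hs hG, ?_⟩
  · have e1 : Pe ((cut F k ⌊x * J⌋₊).res A True hl).p B = Pe F.p B / Pe F.p A :=
      pe_cond_sub (p := F.p) hB
    rw [e1, le_div_iff₀ hA0]
    exact hP
  · obtain ⟨z, hz⟩ := hTr
    intro ω ω' hω hω'
    rw [hz ω hω.ne', hz ω' hω'.ne']

end Pool.SQ
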