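import Pool.Agent.H1.GEN.One

/-!
# Cutting the last digits of one coordinate

`cut F k s`: the family `F` with the coordinate `k` divided by `2 ^ s`, rounded down to the
resolution. The digits of the point and of the direction of the cut family are digits of `F`, up to
a correction `cc` with the values `0, 1, 2`.
-/

set_option autoImplicit false

namespace Pool.SQ

open Finset Real MvPolynomial
open Pool.Agent.H49.Ent Pool.Agent.H32.Dense Pool.STK Pool.KA Pool.KSAT Pool.K2S Pool.PB Pool.S6C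
open Pool.GEN Pool.ZCL

variable {n J : ℕ}

/-- Cutting the last `s` digits. -/
noncomputable def cu (J s : ℕ) (v : ℝ) : ℝ := ((⌊(2 : ℝ) ^ J * v / 2 ^ s⌋ : ℤ) : ℝ) / 2 ^ J

theorem cu_le (J s : ℕ) (v : ℝ) : cu J s v ≤ v / 2 ^ s := by
  have p0 : (0 : ℝ) < 2 ^ J := by positivity
  have h1 := Int.floor_le ((2 : ℝ) ^ J * v / 2 ^ s)
  unfold cu
  rw [div_le_iff₀ p0]
  refine h1.trans (le_of_eq ?_)
  ring

theorem lt_cu (J s : ℕ) (v : ℝ) : v / 2 ^ s - 1 / 2 ^ J < cu J s v := by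
  have p0 : (0 : ℝ) < 2 ^ J := by positivity
  have h1 := Int.lt_floor_add_one ((2 : ℝ) ^ J * v / 2 ^ s)
  unfold cu
  rw [lt_div_iff₀ p0, sub_mul, one_div, inv_mul_cancel₀ p0.ne']
  have e : v / 2 ^ s * 2 ^ J = 2 ^ J * v / 2 ^ s := by ring
  rw [e]
  linarith

theorem cu_nonneg (J s : ℕ) {v : ℝ} (hv : 0 ≤ v) : 0 ≤ cu J s v := by
  unfold cu
  refine div_nonneg ?_ (by positivity)
  have : (0 : ℤ) ≤ ⌊(2 : ℝ) ^ J * v / 2 ^ s⌋ := Int.floor_nonneg.2 (by positivity)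
  exact_mod_cast this

theorem div_two_le (s : ℕ) {v : ℝ} (hv : 0 ≤ v) : v / 2 ^ s ≤ v :=
  div_le_self hv (one_le_pow₀ (by norm_num))

theorem cu_le_self (J s : ℕ) {v : ℝ} (hv : 0 ≤ v) : cu J s v ≤ v :=
  (cu_le J s v).trans (div_two_le s hv)

theorem cu_abs (J s : ℕ) {v : ℝ} (hv : |v| ≤ 1) : |cu J s v| ≤ 1 := by
  obtain ⟨h1, h2⟩ := abs_le.1 hv
  have p0 : (0 : ℝ) < 2 ^ J := by positivity
  have ps : (0 : ℝ) < 2 ^ s := by positivity
  have ps1 : (1 : ℝ) ≤ 2 ^ s := one_le_pow₀ (by norm_num)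
  rw [abs_le]
  constructor
  · unfold cu
    rw [le_div_iff₀ p0]
    have h3 : (-(2 ^ J : ℤ)) ≤ ⌊(2 : ℝ) ^ J * v / 2 ^ s⌋ := by
      rw [Int.le_floor]
      push_cast
      rw [le_div_iff₀ ps]
      nlinarith
    have h4 : (((-(2 ^ J : ℤ)) : ℤ) : ℝ) ≤ (⌊(2 : ℝ) ^ J * v / 2 ^ s⌋ : ℤ) := by exact_mod_cast h3
    push_cast at h4
    linarith
  · refine (cu_le J s v).trans ?_
    rw [div_le_iff₀ ps]
    linarith

/-- **The cut family.** -/
noncomputable def cut (F : Fam n J) (k : Fin n) (s : ℕ) : Fam n J where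
  Ω := F.Ω
  ζ := F.ζ
  fin := F.fin
  p := F.p
  u := fun ω => Function.update (F.u ω) k (cu J s (F.u ω k))
  d := fun ω => Function.update (F.d ω) k (cu J s (F.d ω k))
  T := F.T
  Z := F.Z
  isLaw := F.isLaw
  dir := fun ω i => by
    by_cases h : i = k
    · subst h
      rw [Function.update_self]
      exact cu_abs J s (F.dir ω i)
    · rw [Function.update_of_ne h]
      exact F.dir ω i
  tim := F.tim

variable (F : Fam n J) (k : Fin n) (s : ℕ)

theorem cut_u_k (ω : F.Ω) : (cut F k s).u ω k = cu J s (F.u ω k) := Function.update_self _ _ _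

theorem cut_d_k (ω : F.Ω) : (cut F k s).d ω k = cu J s (F.d ω k) := Function.update_self _ _ _

theorem cut_u_ne {i : Fin n} (h : i ≠ k) (ω : F.Ω) : (cut F k s).u ω i = F.u ω i :=
  Function.update_of_ne h _ _

theorem cut_d_ne {i : Fin n} (h : i ≠ k) (ω : F.Ω) : (cut F k s).d ω i = F.d ω i :=
  Function.update_of_ne h _ _

theorem cut_t (ω : F.Ω) : (cut F k s).t ω = F.t ω := rfl

theorem cut_x_ne {i : Fin n} (h : i ≠ k) (ω : F.Ω) : (cut F k s).x ω i = F.x ω i := by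
  unfold Fam.x
  rw [cut_u_ne F k s h, cut_d_ne F k s h, cut_t]

theorem t_nonneg (ω : F.Ω) : 0 ≤ F.t ω := by
  unfold Fam.t
  positivity

theorem t_lt (ω : F.Ω) : F.t ω < 1 := by
  unfold Fam.t
  rw [div_lt_one (by positivity)]
  exact_mod_cast F.tim ω

/-- The coordinate `k` of the cut family is the quotient, up to two units of the resolution. -/
theorem cut_x_k (ω : F.Ω) : (cut F k s).x ω k ≤ F.x ω k / 2 ^ s ∧
    F.x ω k / 2 ^ s - 2 / 2 ^ J ≤ (cut F k s).x ω k := by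
  have h1 := cu_le J s (F.u ω k)
  have h2 := cu_le J s (F.d ω k)
  have h3 := lt_cu J s (F.u ω k)
  have h4 := lt_cu J s (F.d ω k)
  have t0 := t_nonneg F ω
  have t1 := (t_lt F ω).le
  have e1 : (cut F k s).x ω k = cu J s (F.u ω k) + F.t ω * cu J s (F.d ω k) := by
    unfold Fam.x
    rw [cut_u_k, cut_d_k, cut_t]
  have e2 : F.x ω k / 2 ^ s = F.u ω k / 2 ^ s + F.t ω * (F.d ω k / 2 ^ s) := by
    unfold Fam.x
    ring
  have e3 : (2 : ℝ) / 2 ^ J = 1 / 2 ^ J + 1 / 2 ^ J := by ring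
  have p0 : (0 : ℝ) < 1 / 2 ^ J := by positivity
  rw [e1, e2, e3]
  constructor
  · exact add_le_add h1 (mul_le_mul_of_nonneg_left h2 t0)
  · have h5 : F.t ω * (F.d ω k / 2 ^ s - 1 / 2 ^ J) ≤ F.t ω * cu J s (F.d ω k) :=
      mul_le_mul_of_nonneg_left h4.le t0
    have h6 : F.t ω * (1 / 2 ^ J) ≤ 1 * (1 / 2 ^ J) := mul_le_mul_of_nonneg_right t1 p0.le
    rw [mul_sub] at h5
    linarith

theorem cut_X_ne {i : Fin n} (h : i ≠ k) (j : ℕ) (ω : F.Ω) : (cut F k s).X j ω i = F.X j ω i := by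
  change ⌊(2 : ℝ) ^ j * (cut F k s).x ω i⌋ = ⌊(2 : ℝ) ^ j * F.x ω i⌋
  rw [cut_x_ne F k s h]

/-- The digits of the cut coordinate. -/
theorem cut_X_k {j : ℕ} (hj : j ≤ J) (ω : F.Ω) :
    (cut F k s).X j ω k ≤ F.X j ω k / 2 ^ s ∧ F.X j ω k / 2 ^ s - 2 ≤ (cut F k s).X j ω k := by
  obtain ⟨h1, h2⟩ := cut_x_k F k s ω
  have e1 : (F.X j ω k : ℤ) / 2 ^ s = ⌊(2 : ℝ) ^ j * F.x ω k / 2 ^ s⌋ := by
    have h3 := Int.floor_div_natCast ((2 : ℝ) ^ j * F.x ω k) (2 ^ s)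
    push_cast at h3
    exact h3.symm
  have e2 : (cut F k s).X j ω k = ⌊(2 : ℝ) ^ j * (cut F k s).x ω k⌋ := rfl
  have p0 : (0 : ℝ) < 2 ^ j := by positivity
  rw [e1, e2]
  constructor
  · refine Int.floor_le_floor ?_
    calc (2 : ℝ) ^ j * (cut F k s).x ω k ≤ 2 ^ j * (F.x ω k / 2 ^ s) :=
          mul_le_mul_of_nonneg_left h1 p0.le
      _ = _ := by ring
  · rw [← Int.floor_sub_ofNat]
    refine Int.floor_le_floor ?_
    have h3 := mul_le_mul_of_nonneg_left h2 p0.le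
    have h4 : (2 : ℝ) ^ j * (2 / 2 ^ J) ≤ 2 := by
      have h5 : (2 : ℝ) ^ j / 2 ^ J ≤ 1 := by
        rw [div_le_one (by positivity)]
        exact pow_le_pow_right₀ (by norm_num) hj
      calc (2 : ℝ) ^ j * (2 / 2 ^ J) = 2 * (2 ^ j / 2 ^ J) := by ring
        _ ≤ 2 * 1 := mul_le_mul_of_nonneg_left h5 (by norm_num)
        _ = 2 := by norm_num
    have e3 : (2 : ℝ) ^ j * (F.x ω k / 2 ^ s - 2 / 2 ^ J) =
        2 ^ j * F.x ω k / 2 ^ s - 2 ^ j * (2 / 2 ^ J) := by ring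
    rw [e3] at h3
    linarith

/-- The digits of the direction. -/
theorem cut_D {j : ℕ} (hj : j ≤ J) (ω : F.Ω) :
    (cut F k s).D j ω = Function.update (F.D j ω) k (F.D j ω k / 2 ^ s) := by
  funext i
  by_cases h : i = k
  · subst h
    rw [Function.update_self]
    change ⌊(2 : ℝ) ^ j * (cut F i s).d ω i⌋ = ⌊(2 : ℝ) ^ j * F.d ω i⌋ / 2 ^ s
    rw [cut_d_k]
    unfold cu
    obtain ⟨v, hv⟩ : ∃ v, v = F.d ω i := ⟨_, rfl⟩
    rw [← hv]
    obtain ⟨l, rfl⟩ := Nat.exists_eq_add_of_le hj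
    have e1 : (2 : ℝ) ^ j * (((⌊(2 : ℝ) ^ (j + l) * v / 2 ^ s⌋ : ℤ) : ℝ) / 2 ^ (j + l)) =
        ((⌊(2 : ℝ) ^ (j + l) * v / 2 ^ s⌋ : ℤ) : ℝ) / ((2 ^ l : ℕ) : ℝ) := by
      push_cast
      rw [pow_add]
      field_simp
    rw [e1, Int.floor_div_natCast, Int.floor_intCast]
    have h2 := Int.floor_div_natCast ((2 : ℝ) ^ (j + l) * v) (2 ^ s)
    have h3 := Int.floor_div_natCast ((2 : ℝ) ^ (j + l) * v) (2 ^ l)
    push_cast at h2 h3
    have e2 : (2 : ℝ) ^ (j + l) * v / 2 ^ l = 2 ^ j * v := by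
      rw [pow_add]
      field_simp
    rw [e2] at h3
    push_cast
    rw [h2, h3, Int.ediv_ediv_of_nonneg (by positivity), Int.ediv_ediv_of_nonneg
      (by positivity), mul_comm ((2 : ℤ) ^ s)]
  · rw [Function.update_of_ne h]
    change ⌊(2 : ℝ) ^ j * (cut F k s).d ω i⌋ = ⌊(2 : ℝ) ^ j * F.d ω i⌋
    rw [cut_d_ne F k s h]

/-! ### The correction -/

/-- The correction of the digits of the point. -/
noncomputable def cc (ω : F.Ω) : ℤ := F.X J ω k / 2 ^ s - (cut F k s).X J ω k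

theorem cc_mem (ω : F.Ω) : cc F k s ω = 0 ∨ cc F k s ω = 1 ∨ cc F k s ω = 2 := by
  have h := cut_X_k F k s le_rfl ω
  unfold cc
  omega

/-- The digits of the point of the cut family, from the digits of the point. -/
theorem cut_X (ω : F.Ω) : (cut F k s).X J ω =
    Function.update (F.X J ω) k (F.X J ω k / 2 ^ s - cc F k s ω) := by
  funext i
  by_cases h : i = k
  · subst h
    rw [Function.update_self]
    unfold cc
    ring
  · rw [Function.update_of_ne h, cut_X_ne F k s h]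

/-- The record of the point. -/
def psi (F : Fam n J) (k : Fin n) (s : ℕ) (c : ℤ) (y : PtT F) : PtT (cut F k s) :=
  (Function.update y.1 k (y.1 k / 2 ^ s - c), y.2)

/-- The record of the line. -/
noncomputable def phi (F : Fam n J) (k : Fin n) (s : ℕ) (y : LnT F) : LnT (cut F k s) :=
  ((Function.update y.1.1 k (cu J s (y.1.1 k)), Function.update y.1.2 k (cu J s (y.1.2 k))), y.2)

theorem psi_ptr {c : ℤ} {ω : F.Ω} (h : cc F k s ω = c) :
    psi F k s c (ptr F J ω) = ptr (cut F k s) J ω := by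
  refine Prod.ext ?_ rfl
  rw [← h]
  exact (cut_X F k s ω).symm

theorem phi_slam (w : ℕ) (ω : F.Ω) : phi F k s (slam F w ω) = slam (cut F k s) w ω := rfl

/-! ### The structure of the cut family -/

theorem gd_cut {F : Fam n J} (hG : Gd F) (k : Fin n) (s : ℕ) : Gd (cut F k s) := by
  intro (ω : F.Ω) i
  obtain ⟨⟨h1, h2⟩, h3, h4, h5⟩ := hG ω i
  by_cases h : i = k
  · subst h
    rw [cut_u_k, cut_d_k]
    exact ⟨⟨cu_nonneg J s h1, (cu_le_self J s h1).trans h2⟩, cu_nonneg J s h3, ⟨_, rfl⟩,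
      ⟨_, rfl⟩⟩
  · rw [cut_u_ne F k s h, cut_d_ne F k s h]
    exact ⟨⟨h1, h2⟩, h3, h4, h5⟩

/-- The attained labels are trivial. -/
theorem gra_two {s' : Fin n → ℝ} (hs : ∀ j, s' j ≤ 1) {G : Fam n J} (hG : Gd G) :
    GraX 0 2 s' J G := by
  have hJ : (0 : ℝ) ≤ J := Nat.cast_nonneg J
  refine ⟨fun _ _ _ => C 1, fun z j l => ⟨?_, ?_⟩, fun ω _ j l _ => ⟨?_, fun b _ o => ?_⟩⟩
  · rw [totalDegree_C]
  · intro b b' _ _
    rw [eval_C, eval_C]
  · have e : ⌊(s' j - 2) * (J : ℝ)⌋₊ = 0 := by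
      refine Nat.floor_of_nonpos ?_
      have := hs j
      exact mul_nonpos_of_nonpos_of_nonneg (by linarith) hJ
    rw [e, pow_zero, div_one, eval_C]
    obtain ⟨h1, h2⟩ := gd_x hG ω l
    rw [abs_le]
    constructor <;> linarith
  · rw [pderiv_C, map_zero, abs_zero]
    positivity

end Pool.SQ
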