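import Pool.Agent.H57.SQ.Cut

/-!
# Labels of the cut family

`tch_cut`: a label of the coordinate `k` of the cut family, on an event on which the correction is
constant, gives a label of the coordinate `k` of the family; the precision decreases by `s + 2`.
-/

set_option autoImplicit false

namespace Pool.SQ

open Finset Real MvPolynomial
open Pool.Agent.H49.Ent Pool.Agent.H32.Dense Pool.STK Pool.KA Pool.KSAT Pool.K2S Pool.PB Pool.S6C
open Pool.GEN Pool.ZCL
open Pool.LBN (Tch cof cof_lt cof_len)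

variable {n J : ℕ}

/-- Polynomials which do not depend on the coordinate `k`. -/
theorem eval_bt_cut {F : Fam n J} {k : Fin n} {s : ℕ} {c : ℕ → Fin n} {i : ℕ}
    {G : MvPolynomial (Option (Fin n)) ℝ} (h : DepC c i G) (hc : ∀ l < i, c l ≠ k) (ω : F.Ω) :
    eval (bt (cut F k s) ω) G = eval (bt F ω) G := by
  refine h _ _ rfl fun l hl => ?_
  exact cut_x_ne F k s (hc l hl) ω

/-- **Labels of the cut family are labels of the family.** -/
theorem tch_cut {F : Fam n J} {k : Fin n} {s : ℕ} {l : List (Fin n)} (hk : k ∉ l) {K a w P : ℕ}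
    (hP : s + 2 + a ≤ P) {A : F.Ω → Prop} {c₀ : ℤ} (hA : ∀ ω, A ω → cc F k s ω = c₀)
    (h : Tch l k K a w P J (cut F k s) A) : Tch l k K a w (P - (s + 2)) J F A := by
  obtain ⟨a₀, w₀, e, g, h1, h2, h3, h4, h5, G, H, h⟩ := h
  obtain ⟨r, hr⟩ : ∃ r, r = l.length := ⟨_, rfl⟩
  rw [← hr] at h4 h5 h
  have hck : cof l k r = k := by rw [hr]; exact cof_len l k
  have hcn : ∀ i < r, cof l k i ≠ k := by
    intro i hi
    rw [cof_lt (by omega : i < l.length)]
    intro hcon
    exact hk (hcon ▸ List.getElem_mem _)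
  have hgr : s + 2 ≤ g r := by omega
  have hgJ : g r ≤ J := h5 r le_rfl
  -- the factor of the target
  obtain ⟨f, hf⟩ : ∃ f : ℕ → ℝ, f = fun i => if i = r then (2 : ℝ) ^ s else 1 := ⟨_, rfl⟩
  have fr : f r = 2 ^ s := by rw [hf]; exact if_pos rfl
  have fi : ∀ i < r, f i = 1 := fun i hi => by rw [hf]; exact if_neg hi.ne
  have f0 : ∀ i, 0 ≤ f i := by
    intro i
    rw [hf]
    simp only
    split_ifs <;> positivity
  obtain ⟨g', hg'⟩ : ∃ g' : ℕ → ℕ, g' = fun i => if i = r then g r - (s + 2) else g i := ⟨_, rfl⟩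
  have gr : g' r = g r - (s + 2) := by rw [hg']; exact if_pos rfl
  have gi : ∀ i < r, g' i = g i := fun i hi => by rw [hg']; exact if_neg hi.ne
  -- the precision of the target
  have hpr : (2 : ℝ) ^ s * (1 / 2 ^ g r) ≤ 1 / 2 ^ g' r / 4 := by
    rw [gr]
    obtain ⟨q, hq⟩ : ∃ q, g r = q + (s + 2) := ⟨g r - (s + 2), by omega⟩
    rw [hq, Nat.add_sub_cancel, pow_add, pow_add]
    refine le_of_eq ?_
    field_simp
    norm_num
  have hprJ : (2 : ℝ) ^ s * (2 / 2 ^ J) ≤ 1 / 2 ^ g' r / 2 := by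
    have h6 : (1 : ℝ) / 2 ^ J ≤ 1 / 2 ^ g r := inv_mono hgJ
    have h7 := mul_le_mul_of_nonneg_left h6 (by positivity : (0 : ℝ) ≤ 2 ^ s)
    have e1 : (2 : ℝ) ^ s * (2 / 2 ^ J) = 2 * (2 ^ s * (1 / 2 ^ J)) := by ring
    rw [e1]
    linarith
  have hp0 : (0 : ℝ) < 1 / 2 ^ g' r := by positivity
  -- the boxes
  have hbx : ∀ (ω : F.Ω), A ω → ∀ i < r + 1, ∀ b : Option (Fin n) → ℝ,
      NBx (cof l k) (fun j => C (f j) * G (psi F k s c₀ (ptr F J ω)) j) g' a₀ (F.t ω) i b →
      NBx (cof l k) (G (ptr (cut F k s) J ω)) g a₀ ((cut F k s).t ω) i b := by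
    intro ω hω i hi b hb
    refine ⟨hb.1, fun j hj => ?_⟩
    have h6 := hb.2 j hj
    have hjr : j < r := by omega
    simp only at h6
    rw [fi j hjr, C_1, one_mul, psi_ptr F k s (hA ω hω), gi j hjr] at h6
    exact h6
  refine ⟨a₀, w₀, e + s + J, g', h1, h2, h3, ?_, ?_, fun y i => C (f i) * G (psi F k s c₀ y) i,
    fun y i => C (f i) * H (phi F k s y) i, ?_⟩
  · rw [← hr, gr]
    omega
  · intro i hi
    rw [← hr] at hi
    rcases hi.lt_or_eq with h6 | h6
    · rw [gi i h6]
      exact h5 i hi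
    · rw [h6, gr]
      omega
  rw [← hr]
  refine ⟨fun y i => ?_, fun y i => ?_, fun y i => ?_, fun y i => ?_, fun ω hω i hi => ?_,
    fun ω hω i hi b hb => ?_, fun ω hω i hi b hb j hj => ?_⟩
  · refine (totalDegree_mul _ _).trans ?_
    rw [totalDegree_C, zero_add]
    exact h.degG _ i
  · refine (totalDegree_mul _ _).trans ?_
    rw [totalDegree_C, zero_add]
    exact h.degH _ i
  · intro b b' hn hb
    rw [map_mul, map_mul, eval_C, eval_C, h.depG _ i b b' hn hb]
  · intro b b' hn hb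
    rw [map_mul, map_mul, eval_C, eval_C, h.depH _ i b b' hn hb]
  · have h6 := h.pos ω hω i hi
    rw [eval_bt_cut (h.depG _ i) (fun j hj => hcn j (by omega))] at h6
    rw [map_mul, eval_C, psi_ptr F k s (hA ω hω)]
    rcases Nat.lt_or_ge i r with hir | hir
    · rw [cut_x_ne F k s (hcn i hir)] at h6
      rw [fi i hir, one_mul, gi i hir]
      exact h6
    · obtain rfl : i = r := by omega
      rw [hck] at h6
      rw [hck, fr]
      obtain ⟨x1, x2⟩ := cut_x_k F k s ω
      obtain ⟨v, hv⟩ : ∃ v, v = eval (bt F ω) (G (ptr (cut F k s) J ω) i) := ⟨_, rfl⟩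
      rw [← hv] at h6 ⊢
      have p0 : (0 : ℝ) < 2 ^ s := by positivity
      have y1 : (2 : ℝ) ^ s * (cut F k s).x ω k ≤ F.x ω k := by
        have := mul_le_mul_of_nonneg_left x1 p0.le
        rwa [mul_div_cancel₀ _ p0.ne'] at this
      have y2 : F.x ω k - 2 ^ s * (2 / 2 ^ J) ≤ 2 ^ s * (cut F k s).x ω k := by
        have := mul_le_mul_of_nonneg_left x2 p0.le
        rwa [mul_sub, mul_div_cancel₀ _ p0.ne'] at this
      have y3 : |(2 : ℝ) ^ s * (cut F k s).x ω k - 2 ^ s * v| ≤ 2 ^ s * (1 / 2 ^ g i) := by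
        rw [← mul_sub, abs_mul, abs_of_pos p0]
        exact mul_le_mul_of_nonneg_left h6 p0.le
      rw [abs_le] at y3 ⊢
      constructor <;> linarith [y3.1, y3.2]
  · have hb' := hbx ω hω i hi b hb
    have h6 := h.agr ω hω i hi b hb'
    rw [map_mul, map_mul, eval_C, psi_ptr F k s (hA ω hω), ← mul_sub, abs_mul,
      abs_of_nonneg (f0 i)]
    rcases Nat.lt_or_ge i r with hir | hir
    · rw [fi i hir, one_mul, gi i hir]
      exact h6
    · obtain rfl : i = r := by omega
      rw [fr]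
      have h7 := mul_le_mul_of_nonneg_left h6 (by positivity : (0 : ℝ) ≤ 2 ^ s)
      refine h7.trans ?_
      linarith
  · have hb' := hbx ω hω i hi b hb
    have h6 := h.lip ω hω i hi b hb' j hj
    rw [pderiv_C_mul, map_mul, eval_C, psi_ptr F k s (hA ω hω), abs_mul,
      abs_of_nonneg (f0 i)]
    rcases Nat.lt_or_ge i r with hir | hir
    · rw [fi i hir, one_mul]
      refine h6.trans (pow_le_pow_right₀ (by norm_num) ?_)
      have e1 : nlp g' j i = nlp g j i := by
        unfold nlp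
        rw [gi i hir, Finset.sup_congr rfl fun q hq =>
          gi q (by rw [Finset.mem_Icc] at hq; omega)]
      rw [e1]
      omega
    · obtain rfl : i = r := by omega
      rw [fr]
      refine (mul_le_mul_of_nonneg_left h6 (by positivity : (0 : ℝ) ≤ 2 ^ s)).trans ?_
      rw [← pow_add]
      refine pow_le_pow_right₀ (by norm_num) ?_
      have e1 : nlp g j i ≤ J := by
        unfold nlp
        refine (Nat.sub_le _ _).trans (Finset.sup_le fun q hq => h5 q ?_)
        rw [Finset.mem_Icc] at hq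
        exact hq.2
      omega

end Pool.SQ
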