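import Pool.Agent.H57.SQ.Cls

/-!
# The numbers of the class of the cut families

`sq_act`: the activity of the other coordinates. `sq_rate`: the rates of the cut coordinate are the
rates of the coordinate below the row. `sq_thr`: the thresholds of the cut coordinate.
`sq_num`: for every class with numbers `P`, `r` and every row `Q` there is a class as in the
exactness theorem with numbers `P'`, `r'` such that `P' w w ≤ P w₁ w₁ + (1 - Q)` for `w < w₁` and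
`r' x = r (max 0 (x - (1 - Q)))` (`sq_num` is in `H57/SQ/Thr.lean`).
-/

set_option autoImplicit false

namespace Pool.SQ

open Finset Real MvPolynomial
open Pool.Agent.H49.Ent Pool.Agent.H32.Dense Pool.STK Pool.KA Pool.KSAT Pool.K2S Pool.PB Pool.S6C
open Pool.GEN Pool.ZCL Pool.ALL Pool.ONE Pool.GEN.N83
open Pool.LBT (LSys ThrOf)
open Pool.LBN (Tch)

variable {n : ℕ}

/-! ### Entropies -/

/-- The correction costs a constant. -/
theorem ch_cc {J : ℕ} (F : Fam n J) (k : Fin n) (s : ℕ) {p : F.Ω → ℝ} (hp : IsLaw p)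
    {α β : Type} (X : F.Ω → α) (W : F.Ω → β) :
    CH p X W - Real.log 3 ≤ CH p X (fun ω => (cc F k s ω, W ω)) := by
  have h1 := CH_le_add hp.nonneg X (cc F k s) W
  have h2 : CH p (cc F k s) W ≤ Real.log 3 := by
    have h3 := CH_le_card hp.nonneg hp.sum_one (cc F k s) W (fun _ => ({0, 1, 2} : Finset ℤ))
      (fun ω _ => by
        rcases cc_mem F k s ω with h | h | h <;> rw [h] <;> decide)
    refine h3.trans (le_of_eq ?_)
    have h4 : (({0, 1, 2} : Finset ℤ).card : ℝ) = 3 := by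
      have : ({0, 1, 2} : Finset ℤ).card = 3 := by decide
      rw [this]
      norm_num
    rw [h4]
    exact Ex_const hp.sum_one _
  linarith

/-- Integers which differ by at most two. -/
theorem ch_near2 {Ω β : Type} [Fintype Ω] {p : Ω → ℝ} (hp : IsLaw p) (Y Y' : Ω → ℤ)
    (O : Ω → β) (h : ∀ ω, 0 < p ω → |Y ω - Y' ω| ≤ 2) :
    CH p Y O ≤ CH p Y' O + Real.log 5 := by
  have h1 := CH_le_add hp.nonneg Y Y' O
  have h2 : CH p Y (fun ω => (Y' ω, O ω)) ≤ Real.log 5 := by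
    have h3 := CH_le_card hp.nonneg hp.sum_one Y (fun ω => (Y' ω, O ω))
      (fun y => Finset.Icc (y.1 - 2) (y.1 + 2)) (fun ω hω => by
        have := abs_le.1 (h ω hω)
        rw [Finset.mem_Icc]
        constructor <;> linarith [this.1, this.2])
    refine h3.trans (le_of_eq ?_)
    have h4 : (fun ω => Real.log (((fun y : ℤ × β => Finset.Icc (y.1 - 2) (y.1 + 2))
        ((fun ω => (Y' ω, O ω)) ω)).card : ℝ)) = fun _ : Ω => Real.log 5 := by
      funext ω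
      simp only [Int.card_Icc]
      congr 1
      have : (Y' ω + 2 + 1 - (Y' ω - 2)).toNat = 5 := by
        have h5 : Y' ω + 2 + 1 - (Y' ω - 2) = 5 := by ring
        rw [h5]
        rfl
      rw [this]
      norm_num
    rw [h4]
    exact Ex_const hp.sum_one _
  linarith

/-- Rows which differ by at most two digits. -/
theorem ch_row2 {J : ℕ} (F : Fam n J) (k : Fin n) {p : F.Ω → ℝ} (hp : IsLaw p) {β : Type}
    (O : F.Ω → β) {a b : ℕ} (hab : a ≤ b + 2) :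
    CH p (fun ω => F.X a ω k) O ≤ CH p (fun ω => F.X b ω k) O + 2 * Real.log 2 := by
  have hl2 : 0 ≤ Real.log 2 := Real.log_nonneg (by norm_num)
  rcases le_total a b with h | h
  · obtain ⟨m, rfl⟩ := Nat.exists_eq_add_of_le h
    have h1 := (coord_near hp F.x k O a m).1
    have h2 : CH p (fun ω => F.X a ω k) O ≤ CH p (fun ω => F.X (a + m) ω k) O := h1
    linarith
  · obtain ⟨m, rfl⟩ := Nat.exists_eq_add_of_le h
    have h1 := (coord_near hp F.x k O b m).2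
    have h2 : CH p (fun ω => F.X (b + m) ω k) O ≤ CH p (fun ω => F.X b ω k) O +
      m * Real.log 2 := h1
    have h3 : (m : ℝ) ≤ 2 := by
      have : m ≤ 2 := by omega
      exact_mod_cast this
    have h4 := mul_le_mul_of_nonneg_right h3 hl2
    linarith

/-- The digits of the cut coordinate, near the digits of the coordinate. -/
theorem near_X {J : ℕ} {F : Fam n J} (hG : Gd F) (k : Fin n) (s : ℕ) {j : ℕ} (hj : j ≤ J)
    (ω : F.Ω) : |(cut F k s).X j ω k - F.X (j - s) ω k| ≤ 2 := by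
  rcases le_total s j with hs | hs
  · obtain ⟨h1, h2⟩ := cut_X_k F k s hj ω
    have e : F.X j ω k / 2 ^ s = F.X (j - s) ω k := by
      have h3 := Int.floor_div_natCast ((2 : ℝ) ^ j * F.x ω k) (2 ^ s)
      push_cast at h3
      change ⌊(2 : ℝ) ^ j * F.x ω k⌋ / 2 ^ s = ⌊(2 : ℝ) ^ (j - s) * F.x ω k⌋
      rw [← h3]
      congr 1
      obtain ⟨m, rfl⟩ := Nat.exists_eq_add_of_le hs
      rw [Nat.add_sub_cancel_left, pow_add]
      field_simp
    rw [e] at h1 h2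
    rw [abs_le]
    constructor <;> linarith
  · have e : j - s = 0 := by omega
    rw [e]
    obtain ⟨g1, g2⟩ := gd_x hG ω k
    obtain ⟨g3, -⟩ := gd_x (gd_cut hG k s) ω k
    obtain ⟨x1, -⟩ := cut_x_k F k s ω
    have a1 : F.X 0 ω k = ⌊F.x ω k⌋ := by
      change ⌊(2 : ℝ) ^ 0 * F.x ω k⌋ = _
      rw [pow_zero, one_mul]
    have a2 : 0 ≤ F.X 0 ω k := by
      rw [a1]
      exact Int.floor_nonneg.2 g1
    have a3 : F.X 0 ω k ≤ 2 := by
      rw [a1]
      have h3 := (Int.floor_le (F.x ω k)).trans g2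
      exact_mod_cast h3
    have a4 : 0 ≤ (cut F k s).X j ω k := Int.floor_nonneg.2 (mul_nonneg (by positivity) g3)
    have a5 : (cut F k s).X j ω k ≤ 2 := by
      have h3 := Int.floor_le ((2 : ℝ) ^ j * (cut F k s).x ω k)
      have h4 : (2 : ℝ) ^ j * (cut F k s).x ω k ≤ 2 := by
        have h5 : (2 : ℝ) ^ j ≤ 2 ^ s := pow_le_pow_right₀ (by norm_num) hs
        have h6 : (cut F k s).x ω k ≤ 2 / 2 ^ s :=
          x1.trans (div_le_div_of_nonneg_right g2 (by positivity))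
        calc (2 : ℝ) ^ j * (cut F k s).x ω k ≤ 2 ^ s * (2 / 2 ^ s) :=
              mul_le_mul h5 h6 g3 (by positivity)
          _ = 2 := by field_simp
      have h5 : (((cut F k s).X j ω k : ℤ) : ℝ) ≤ (2 : ℤ) := by
        push_cast
        exact h3.trans h4
      exact_mod_cast h5
    rw [abs_le]
    constructor <;> linarith

/-! ### Activity -/

/-- The properties of the members of the class which are used below. -/
theorem bas_gd {S : PCl n} (hS : ∀ (τ : ℝ) (J : ℕ) (F : Fam n J) (A : F.Ω → Prop),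
    S.St τ J F A → 0 < Pe F.p A ∧ Gd F) : Bas S (fun _ F A => 0 < Pe F.p A ∧ Gd F) :=
  ⟨1, one_pos, 0, fun _ _ F A hA => hS 1 _ F A hA⟩

theorem fl_leJ {q : ℝ} (hq : q ≤ 1) (J : ℕ) : ⌊q * (J : ℝ)⌋₊ ≤ J := by
  refine Nat.floor_le_of_le ?_
  have := mul_le_mul_of_nonneg_right hq (Nat.cast_nonneg (α := ℝ) J)
  linarith

/-- **The activity of the other coordinates.** -/
theorem sq_act {N : ℚ → ℚ → ℝ} {S : PCl n} (hS : ∀ (τ : ℝ) (J : ℕ) (F : Fam n J)
    (A : F.Ω → Prop), S.St τ J F A → 0 < Pe F.p A ∧ Gd F) {k k₀ : Fin n} (hk : k₀ ≠ k)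
    (h : ActB N S k₀) (x : ℝ) : ActB N (SqC S k x) k₀ := by
  intro q q' h0 h1 h2 h' hh
  have hl2 : 0 < Real.log 2 := Real.log_pos (by norm_num)
  obtain ⟨J₂, hJ₂⟩ := exists_nat_ge (Real.log 3 / (h' / 2 * Real.log 2))
  refine bas_sq J₂ ((h q q' h0 h1 h2 (h' / 2) (half_pos hh)).and (bas_gd hS)) ?_
  rintro J F A B hl hJ hB ⟨h3, h4, h5⟩
  have hcl : IsLaw (Pool.Agent.H49.Ent.cond F.p B True) := isLaw_cond F.isLaw h4
  have e0 : Pool.Agent.H49.Ent.cond ((cut F k ⌊x * J⌋₊).res A True hl).p B True =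
      Pool.Agent.H49.Ent.cond F.p B True := cond_sub (p := F.p) hl hB
  rw [e0]
  have hq : ((q : ℚ) : ℝ) ≤ 1 := by exact_mod_cast h1.trans h2
  have hq' : ((q' : ℚ) : ℝ) ≤ 1 := by exact_mod_cast h2
  -- the directions and the points
  obtain ⟨s, hs⟩ : ∃ s, s = ⌊x * (J : ℝ)⌋₊ := ⟨_, rfl⟩
  have e1 : (fun ω : F.Ω => (cut F k s).D ⌊((q' : ℚ) : ℝ) * J⌋₊ ω k₀) =
      fun ω => F.D ⌊((q' : ℚ) : ℝ) * J⌋₊ ω k₀ := by
    funext ω
    have := congrFun (cut_D F k s (fl_leJ hq' J) ω) k₀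
    rw [Function.update_of_ne hk] at this
    exact this
  have h6 : CH (Pool.Agent.H49.Ent.cond F.p B True) (fun ω => F.D ⌊((q' : ℚ) : ℝ) * J⌋₊ ω k₀)
      (fun ω => (cc F k s ω, (F.D ⌊((q : ℚ) : ℝ) * J⌋₊ ω, (F.X J ω, F.W ω)))) ≤
      CH (Pool.Agent.H49.Ent.cond F.p B True) (fun ω => F.D ⌊((q' : ℚ) : ℝ) * J⌋₊ ω k₀)
      (fun ω : F.Ω => ((cut F k s).D ⌊((q : ℚ) : ℝ) * J⌋₊ ω, ((cut F k s).X J ω, F.W ω))) := by
    refine CH_mono_cond hcl.nonneg fun ω ω' _ _ h => ?_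
    obtain ⟨b1, b2⟩ := Prod.ext_iff.1 h
    obtain ⟨b3, b4⟩ := Prod.ext_iff.1 b2
    obtain ⟨b5, b6⟩ := Prod.ext_iff.1 b4
    simp only at b1 b3 b5 b6
    refine Prod.ext ?_ (Prod.ext ?_ b6)
    · change (cut F k s).D ⌊((q : ℚ) : ℝ) * J⌋₊ ω = (cut F k s).D ⌊((q : ℚ) : ℝ) * J⌋₊ ω'
      rw [cut_D F k _ (fl_leJ hq J) ω, cut_D F k _ (fl_leJ hq J) ω', b3]
    · change (cut F k s).X J ω = (cut F k s).X J ω'
      rw [cut_X F k _ ω, cut_X F k _ ω', b5, b1]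
  have h7 := ch_cc F k s hcl (fun ω => F.D ⌊((q' : ℚ) : ℝ) * J⌋₊ ω k₀)
    (fun ω => (F.D ⌊((q : ℚ) : ℝ) * J⌋₊ ω, (F.X J ω, F.W ω)))
  have h8 : Real.log 3 ≤ h' / 2 * Real.log 2 * J := by
    have a1 : (J₂ : ℝ) ≤ J := by exact_mod_cast hJ
    have a2 := hJ₂.trans a1
    rw [div_le_iff₀ (by positivity)] at a2
    linarith
  have e2 : (N q q' - h') * Real.log 2 * (J : ℝ) =
      (N q q' - h' / 2) * Real.log 2 * J - h' / 2 * Real.log 2 * J := by ring
  have key : (N q q' - h') * Real.log 2 * (J : ℝ) ≤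
      CH (Pool.Agent.H49.Ent.cond F.p B True)
        (fun ω : F.Ω => (cut F k s).D ⌊((q' : ℚ) : ℝ) * J⌋₊ ω k₀)
        (fun ω : F.Ω => ((cut F k s).D ⌊((q : ℚ) : ℝ) * J⌋₊ ω, ((cut F k s).X J ω, F.W ω))) := by
    rw [e1, e2]
    linarith
  subst hs
  exact key

/-! ### The rates -/

/-- The rows of the cut coordinate. -/
theorem row_num {R Q : ℝ} (hR0 : 0 ≤ R) (hQ1 : Q < 1) (J : ℕ) :
    ⌊R * (J : ℝ)⌋₊ - ⌊(1 - Q) * (J : ℝ)⌋₊ ≤ ⌊max 0 (R - (1 - Q)) * (J : ℝ)⌋₊ + 2 ∧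
      ⌊max 0 (R - (1 - Q)) * (J : ℝ)⌋₊ ≤ ⌊R * (J : ℝ)⌋₊ - ⌊(1 - Q) * (J : ℝ)⌋₊ + 2 := by
  have hJ : (0 : ℝ) ≤ J := Nat.cast_nonneg J
  rcases le_total R (1 - Q) with h | h
  · rw [max_eq_left (by linarith), zero_mul, Nat.floor_zero]
    have h1 : ⌊R * (J : ℝ)⌋₊ ≤ ⌊(1 - Q) * (J : ℝ)⌋₊ :=
      Nat.floor_le_floor (mul_le_mul_of_nonneg_right h hJ)
    omega
  · rw [max_eq_right (by linarith)]
    have h1 : ⌊(1 - Q) * (J : ℝ)⌋₊ ≤ ⌊R * (J : ℝ)⌋₊ :=
      Nat.floor_le_floor (mul_le_mul_of_nonneg_right h hJ)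
    obtain ⟨m, hm⟩ := Nat.exists_eq_add_of_le h1
    rw [hm, Nat.add_sub_cancel_left]
    have a1 : (⌊R * (J : ℝ)⌋₊ : ℝ) ≤ R * J := Nat.floor_le (by positivity)
    have a2 : R * (J : ℝ) < ⌊R * (J : ℝ)⌋₊ + 1 := Nat.lt_floor_add_one _
    have a3 : (⌊(1 - Q) * (J : ℝ)⌋₊ : ℝ) ≤ (1 - Q) * J :=
      Nat.floor_le (mul_nonneg (by linarith) hJ)
    have a4 : (1 - Q) * (J : ℝ) < ⌊(1 - Q) * (J : ℝ)⌋₊ + 1 := Nat.lt_floor_add_one _
    have a5 : (⌊(R - (1 - Q)) * (J : ℝ)⌋₊ : ℝ) ≤ (R - (1 - Q)) * J :=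
      Nat.floor_le (mul_nonneg (by linarith) hJ)
    have a6 : (R - (1 - Q)) * (J : ℝ) < ⌊(R - (1 - Q)) * (J : ℝ)⌋₊ + 1 := Nat.lt_floor_add_one _
    rw [hm] at a1 a2
    push_cast at a1 a2
    have e : (R - (1 - Q)) * (J : ℝ) = R * J - (1 - Q) * J := by ring
    rw [e] at a5 a6
    constructor
    · have : (m : ℝ) < ((⌊(R - (1 - Q)) * (J : ℝ)⌋₊ + 2 : ℕ) : ℝ) := by
        push_cast
        rw [e]
        linarith
      exact (Nat.cast_lt.1 this).le
    · have : ((⌊(R - (1 - Q)) * (J : ℝ)⌋₊ : ℕ) : ℝ) < ((m + 2 : ℕ) : ℝ) := by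
        push_cast
        rw [e]
        linarith
      exact (Nat.cast_lt.1 this).le

/-- **The rates of the cut coordinate.** -/
theorem sq_rate {S : PCl n} (hS : ∀ (τ : ℝ) (J : ℕ) (F : Fam n J)
    (A : F.Ω → Prop), S.St τ J F A → 0 < Pe F.p A ∧ Gd F) {k : Fin n} {r : ℝ → ℝ}
    (h : RateOf S k r) {Q : ℝ} (hQ1 : Q < 1) :
    RateOf (SqC S k (1 - Q)) k (fun x => r (max 0 (x - (1 - Q)))) := by
  have hl2 : 0 < Real.log 2 := Real.log_pos (by norm_num)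
  have hl5 : 0 < Real.log 5 := Real.log_pos (by norm_num)
  refine ⟨?_, ?_, ?_, ?_⟩
  · refine LipschitzWith.of_dist_le_mul fun x y => ?_
    have h1 := h.lip.dist_le_mul (max 0 (x - (1 - Q))) (max 0 (y - (1 - Q)))
    refine h1.trans (mul_le_mul_of_nonneg_left ?_ (NNReal.coe_nonneg _))
    rw [Real.dist_eq, Real.dist_eq]
    have h2 := abs_max_sub_max_le_abs (x - (1 - Q)) (y - (1 - Q)) 0
    rw [max_comm 0, max_comm 0]
    refine h2.trans (le_of_eq ?_)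
    congr 1
    ring
  · intro x y hxy
    exact h.mono (max_le_max le_rfl (by linarith))
  · rw [max_eq_left (by linarith)]
    exact h.zero
  · intro R hR0 hR1 h' hh
    have hx0 : 0 ≤ max 0 (R - (1 - Q)) := le_max_left _ _
    have hx1 : max 0 (R - (1 - Q)) ≤ 1 := max_le zero_le_one (by linarith)
    obtain ⟨J₂, hJ₂⟩ := exists_nat_ge ((Real.log 5 + 2 * Real.log 2) / (h' / 2))
    refine bas_sq J₂ ((h.num _ hx0 hx1 (h' / 2) (half_pos hh)).and (bas_gd hS)) ?_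
    rintro J F A B hl hJ hB ⟨h3, h4, h5⟩
    have hcl : IsLaw (Pool.Agent.H49.Ent.cond F.p B True) := isLaw_cond F.isLaw h4
    have e0 : Pool.Agent.H49.Ent.cond ((cut F k ⌊(1 - Q) * J⌋₊).res A True hl).p B True =
        Pool.Agent.H49.Ent.cond F.p B True := cond_sub (p := F.p) hl hB
    rw [e0]
    obtain ⟨s, hs⟩ : ∃ s, s = ⌊(1 - Q) * (J : ℝ)⌋₊ := ⟨_, rfl⟩
    obtain ⟨O, hO⟩ : ∃ O : F.Ω → (Fin n → ℤ) × (ℕ × F.ζ),
      O = fun ω => oth k J F (ptr F J ω) := ⟨_, rfl⟩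
    have e1 : (fun ω : F.Ω => oth k J (cut F k s) (ptr (cut F k s) J ω)) = O := by
      rw [hO]
      funext ω
      refine Prod.ext ?_ rfl
      change Function.update ((cut F k s).X J ω) k 0 = Function.update (F.X J ω) k 0
      rw [cut_X, Function.update_idem]
    rw [← hO] at h3
    have hj : ⌊R * (J : ℝ)⌋₊ ≤ J := fl_leJ hR1 J
    obtain ⟨r1, r2⟩ := row_num hR0 hQ1 J
    rw [← hs] at r1 r2
    have n1 := ch_near2 hcl (fun ω : F.Ω => (cut F k s).X ⌊R * J⌋₊ ω k)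
      (fun ω => F.X (⌊R * (J : ℝ)⌋₊ - s) ω k) O (fun ω _ => near_X h5 k s hj ω)
    have n2 := ch_near2 hcl (fun ω => F.X (⌊R * (J : ℝ)⌋₊ - s) ω k)
      (fun ω : F.Ω => (cut F k s).X ⌊R * J⌋₊ ω k) O (fun ω _ => by
        rw [abs_sub_comm]
        exact near_X h5 k s hj ω)
    have n3 := ch_row2 F k hcl O r1
    have n4 := ch_row2 F k hcl O r2
    have h8 : Real.log 5 + 2 * Real.log 2 ≤ h' / 2 * J := by
      have a1 : (J₂ : ℝ) ≤ J := by exact_mod_cast hJ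
      have a2 := hJ₂.trans a1
      rw [div_le_iff₀ (by positivity)] at a2
      linarith
    have key : |CH (Pool.Agent.H49.Ent.cond F.p B True)
        (fun ω : F.Ω => (cut F k s).X ⌊R * J⌋₊ ω k) O -
        r (max 0 (R - (1 - Q))) * Real.log 2 * J| ≤ h' * J := by
      rw [abs_le] at h3 ⊢
      have e3 : h' * (J : ℝ) = h' / 2 * J + h' / 2 * J := by ring
      constructor
      · linarith [h3.1, h3.2]
      · linarith [h3.1, h3.2]
    rw [← e1] at key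
    subst hs
    exact key

end Pool.SQ
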