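import Pool.Agent.H57.SQ.Thr
import Pool.Agent.H93.GEN.TopW

/-!
# The numbers of the class truncated at a row

`sq_numT`: for every class as in the exactness theorem and every row `Q < 1` there is a class as in
the exactness theorem whose numbers are the numbers truncated at the row `Q` (`Pool.STR.NumT`).
-/

set_option autoImplicit false

namespace Pool.SQ

open Finset Real MvPolynomial
open Pool.Agent.H49.Ent Pool.Agent.H32.Dense Pool.STK Pool.KA Pool.KSAT Pool.K2S Pool.PB Pool.S6C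
open Pool.GEN Pool.ZCL Pool.ALL Pool.ONE Pool.GEN.N83
open Pool.LBT (LSys ThrOf)
open Pool.STR (NumT)

variable {n : ℕ} {s : Fin n → ℝ} {d : ℕ → ℝ} {al : ℝ} {g₀ : ℝ → ℝ} {e : ℝ} {K₀ : ℕ}
  {N : ℚ → ℚ → ℝ} {S : PCl n}

/-- **The class truncated at the row `Q`.** -/
theorem sq_numT (hn : 2 ≤ n) (hN : NumX s d) (hS : ClX s d al g₀ e K₀ N S) {P : ℝ → ℝ → ℝ}
    {r : ℝ → ℝ} (hP : ThrOf (tgs (lst hn)) S (fun _ => P)) (hr : RateOf S (lst hn) r) {Q : ℝ}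
    (hQ1 : Q < 1) : ∃ (T : PCl n) (P' : ℝ → ℝ → ℝ) (r' : ℝ → ℝ),
      (∀ (τ : ℝ) (J : ℕ) (F : Fam n J) (A : F.Ω → Prop), T.St τ J F A →
        (SqC S (lst hn) (1 - Q)).St τ J F A) ∧
      ClX s d al g₀ 2 0 N T ∧ ThrOf (tgs (lst hn)) T (fun _ => P') ∧
      RateOf T (lst hn) r' ∧ NumT P r Q P' r' := by
  obtain ⟨T, P', h1, h2, h3, h4, h5⟩ := sq_num hn hN hS hP hr hQ1
  refine ⟨T, P', _, h1, h2, h3, h4, h3.law (), fun w h6 h7 => ?_, fun w h6 h7 => ?_, h5,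
    fun x _ _ => rfl⟩
  · exact h6.le.trans (h3.low () w w h6.le le_rfl h7)
  · exact h3.up () w w h6.le le_rfl h7

/-- **Local statements for the truncated class.** -/
theorem sq_locT {Φ : (ℝ → ℝ → ℝ) → (ℝ → ℝ) → Prop} (h : LocN n Φ) (hn : 2 ≤ n)
    (hZ : ∀ k, 1 ≤ k → k < n → FZX k) (hal : 0 < al) (hg₀ : ∀ ε : ℝ, 0 < ε → 0 < g₀ ε)
    (hN : NumX s d) (hS : ClX s d al g₀ e K₀ N S) {P : ℝ → ℝ → ℝ}
    {r : ℝ → ℝ} (hP : ThrOf (tgs (lst hn)) S (fun _ => P)) (hr : RateOf S (lst hn) r) {Q : ℝ}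
    (hQ1 : Q < 1) : ∃ (P' : ℝ → ℝ → ℝ) (r' : ℝ → ℝ), NumT P r Q P' r' ∧ Φ P' r' := by
  obtain ⟨T, P', r', -, h2, h3, h4, h5⟩ := sq_numT hn hN hS hP hr hQ1
  exact ⟨P', r', h5, h hn hZ al g₀ s d hal hg₀ hN 2 0 N T (by norm_num) h2 P' r' h3 h4⟩

end Pool.SQ
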