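import Pool.Agent.H57.SQ.Num

/-!
# The thresholds of the class of the cut families

`sq_thr`: `P' w w ≤ P w₁ w₁ + x` for `w < w₁`, if the last `x J` digits of the coordinate are cut.
`sq_num`: for every class with numbers `P`, `r` and every row `Q` there is a class as in the
exactness theorem with numbers `P'`, `r'` such that `P' w w ≤ P w₁ w₁ + (1 - Q)` for `w < w₁` and
`r' x = r (max 0 (x - (1 - Q)))`.
-/

set_option autoImplicit false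

namespace Pool.SQ

open Finset Real MvPolynomial
open Pool.Agent.H49.Ent Pool.Agent.H32.Dense Pool.STK Pool.KA Pool.KSAT Pool.K2S Pool.PB Pool.S6C
open Pool.GEN Pool.ZCL Pool.ALL Pool.ONE Pool.GEN.N83
open Pool.LBT (LSys ThrOf)
open Pool.LBN (Tch)

variable {n : ℕ}

/-- Labels do not depend on the law. -/
theorem tch_res {J : ℕ} {F : Fam n J} {κ : Type} {c : F.Ω → κ} {v : κ}
    {hl : IsLaw (Pool.Agent.H49.Ent.cond F.p c v)} {l : List (Fin n)} {k : Fin n}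
    {K a w P : ℕ} {A : F.Ω → Prop} (h : Tch l k K a w P J (F.res c v hl) A) :
    Tch l k K a w P J F A := by
  obtain ⟨a₀, w₀, e, g, h1, h2, h3, h4, h5, G, H, h⟩ := h
  exact ⟨a₀, w₀, e, g, h1, h2, h3, h4, h5, G, H, h.degG, h.degH, h.depG, h.depH, h.pos, h.agr,
    h.lip⟩

/-- One of the three values of the correction is taken on a large event. -/
theorem cc_large {J : ℕ} (F : Fam n J) (k : Fin n) (s : ℕ) (B : F.Ω → Prop) :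
    ∃ c₀ : ℤ, Pe F.p B ≤ 3 * Pe F.p (fun ω => B ω ∧ cc F k s ω = c₀) := by
  by_contra hcon
  push Not at hcon
  have h0 := hcon 0
  have h1 := hcon 1
  have h2 := hcon 2
  have h3 := Pe_or F.isLaw (A := B) (B₀ := fun ω => B ω ∧ cc F k s ω = 0)
    (B₁ := fun ω => (B ω ∧ cc F k s ω = 1) ∨ (B ω ∧ cc F k s ω = 2)) (fun ω hω => by
      rcases cc_mem F k s ω with h | h | h
      · exact Or.inl ⟨hω, h⟩
      · exact Or.inr (Or.inl ⟨hω, h⟩)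
      · exact Or.inr (Or.inr ⟨hω, h⟩))
  have h4 := Pe_or F.isLaw
    (A := fun ω => (B ω ∧ cc F k s ω = 1) ∨ (B ω ∧ cc F k s ω = 2))
    (B₀ := fun ω => B ω ∧ cc F k s ω = 1) (B₁ := fun ω => B ω ∧ cc F k s ω = 2) (fun ω h => h)
  linarith

/-- **The thresholds of the cut coordinate.** -/
theorem sq_thr {S T : PCl n} {k : Fin n} {x : ℝ} (hx0 : 0 ≤ x) {P P' : ℝ → ℝ → ℝ}
    (hP : ThrOf (tgs k) S (fun _ => P)) (hP' : ThrOf (tgs k) T (fun _ => P')) (hT : T.Ne)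
    (hs : ∀ (τ : ℝ) (J : ℕ) (F : Fam n J) (A : F.Ω → Prop), T.St τ J F A →
      (SqC S k x).St τ J F A) {w w₁ : ℝ} (hw : 0 < w) (hww : w < w₁) (hw1 : w₁ ≤ 1) :
    P' w w ≤ P w₁ w₁ + x := by
  by_contra hcon
  push Not at hcon
  obtain ⟨δ, hδ⟩ : ∃ δ, δ = (P' w w - P w₁ w₁ - x) / 3 := ⟨_, rfl⟩
  have d0 : 0 < δ := by rw [hδ]; linarith
  have e1 : P' w w = P w₁ w₁ + x + 3 * δ := by rw [hδ]; ring
  have p1 : P' w w ≤ 1 := hP'.up () w w hw.le le_rfl (by linarith)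
  have p2 : w₁ ≤ P w₁ w₁ := hP.low () w₁ w₁ (by linarith) le_rfl hw1
  obtain ⟨K, hatt⟩ := hP'.att () w w δ hw le_rfl (by linarith) d0 (by linarith)
  have hno := hP.no' () K (a := w) (w := w) (a' := w₁) (w' := w₁) hw.le le_rfl hww hww le_rfl hw1
    d0 (by linarith)
  obtain ⟨J₂, hJ₂⟩ := exists_nat_ge (3 / δ)
  have hno' : Bas (SqC S k x) (fun J F A =>
      ¬ (tgs k).T () K ⌊w * J⌋₊ ⌊w * J⌋₊ ⌊(P' w w - δ) * J⌋₊ J F A) := by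
    refine bas_sq' J₂ (C := 3) (by norm_num) hno ?_
    intro J F A B hl hJ hB hH hT
    have hJr : (0 : ℝ) ≤ J := Nat.cast_nonneg J
    have hdJ : 3 ≤ δ * J := by
      have a1 : (J₂ : ℝ) ≤ J := by exact_mod_cast hJ
      have a2 := hJ₂.trans a1
      rw [div_le_iff₀ d0] at a2
      linarith
    obtain ⟨l, h1, h2, h3⟩ := hT
    have h4 := tch_res h3
    obtain ⟨c₀, hc₀⟩ := cc_large F k ⌊x * (J : ℝ)⌋₊ B
    refine hH (fun ω => B ω ∧ cc F k ⌊x * (J : ℝ)⌋₊ ω = c₀) (fun ω h => h.1) hc₀ ⟨l, h1, h2, ?_⟩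
    have f1 : (⌊x * (J : ℝ)⌋₊ : ℝ) ≤ x * J := Nat.floor_le (by positivity)
    have f2 : (⌊w * (J : ℝ)⌋₊ : ℝ) ≤ w * J := Nat.floor_le (by positivity)
    have f3 : (P' w w - δ) * J < ⌊(P' w w - δ) * (J : ℝ)⌋₊ + 1 := Nat.lt_floor_add_one _
    have f4 : (⌊(P w₁ w₁ + δ) * (J : ℝ)⌋₊ : ℝ) ≤ (P w₁ w₁ + δ) * J :=
      Nat.floor_le (by
        have : 0 ≤ P w₁ w₁ + δ := by linarith
        positivity)
    have e2 : (P' w w - δ) * (J : ℝ) = (P w₁ w₁ + δ) * J + x * J + δ * J := by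
      rw [e1]
      ring
    have hw1J : w * (J : ℝ) ≤ P w₁ w₁ * J := mul_le_mul_of_nonneg_right (by linarith) hJr
    have g1 : ⌊x * (J : ℝ)⌋₊ + 2 + ⌊w * (J : ℝ)⌋₊ ≤ ⌊(P' w w - δ) * (J : ℝ)⌋₊ := by
      have : ((⌊x * (J : ℝ)⌋₊ + 2 + ⌊w * (J : ℝ)⌋₊ : ℕ) : ℝ) <
          ((⌊(P' w w - δ) * (J : ℝ)⌋₊ + 1 : ℕ) : ℝ) := by
        push_cast
        linarith
      have := Nat.cast_lt.1 this
      omega
    have g2 : ⌊(P w₁ w₁ + δ) * (J : ℝ)⌋₊ ≤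
        ⌊(P' w w - δ) * (J : ℝ)⌋₊ - (⌊x * (J : ℝ)⌋₊ + 2) := by
      have : ((⌊(P w₁ w₁ + δ) * (J : ℝ)⌋₊ + (⌊x * (J : ℝ)⌋₊ + 2) : ℕ) : ℝ) <
          ((⌊(P' w w - δ) * (J : ℝ)⌋₊ + 1 : ℕ) : ℝ) := by
        push_cast
        linarith
      have := Nat.cast_lt.1 this
      omega
    refine (tch_cut h2 g1 (fun ω h => h.2) ?_).anti g2
    exact Tch.her l k K _ _ _ J (cut F k ⌊x * (J : ℝ)⌋₊) B _ (fun ω h => h.1) h4
  obtain ⟨τ, hτ, J₁, hb⟩ := hatt.and (Bas.sub hs hno')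
  obtain ⟨J, hJ, F, A, hA⟩ := hT τ hτ J₁
  obtain ⟨h1, h2⟩ := hb J hJ F A hA
  exact h2 h1

variable {s : Fin n → ℝ} {d : ℕ → ℝ} {al : ℝ} {g₀ : ℝ → ℝ} {e : ℝ} {K₀ : ℕ} {N : ℚ → ℚ → ℝ}
  {S : PCl n}

/-- **The class of the cut families is a class as in the exactness theorem**, with the slack
`2`. -/
theorem sq_clx (hN : NumX s d) (hS : ClX s d al g₀ e K₀ N S) {k : Fin n} (hk : (k : ℕ) ≠ 0)
    (x : ℝ) : ClX s d al g₀ 2 0 N (SqC S k x) := by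
  have hmem : ∀ (τ : ℝ) (J : ℕ) (F : Fam n J) (A : F.Ω → Prop), S.St τ J F A → F.Tr ∧
      F.Tm (τ * J) ∧ F.Rb (τ * J) ∧ Real.exp (-(τ * J)) ≤ Pe F.p A ∧ Gd F := by
    intro τ J F A hA
    obtain ⟨h1, h2, h3, h4, h5, -, -⟩ := hS.mem τ J F A hA
    exact ⟨h1, h2, h3, h4, h5⟩
  refine ⟨hS.actm, sq_ne hS.ne hmem k x, fun τ J F A hA => sq_mem hN.s1 hmem k x τ J F A hA,
    fun l K hl => ?_, fun k₀ hk₀ => ?_⟩
  · exfalso
    have h1 : 1 / ((l : ℝ) + 1) ≤ 1 := by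
      rw [div_le_one (by positivity)]
      have : (0 : ℝ) ≤ l := Nat.cast_nonneg l
      linarith
    linarith
  · refine sq_act (fun τ J F A hA => ⟨hS.pos τ J F A hA, (hmem τ J F A hA).2.2.2.2⟩) ?_
      (hS.actb k₀ hk₀) x
    rintro rfl
    exact hk hk₀

/-- The last coordinate is not the first one. -/
theorem lst_ne {hn : 2 ≤ n} : ((lst hn : Fin n) : ℕ) ≠ 0 := by
  show n - 1 ≠ 0
  omega

/-- **The numbers of the class of the cut families.** -/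
theorem sq_num (hn : 2 ≤ n) (hN : NumX s d) (hS : ClX s d al g₀ e K₀ N S) {P : ℝ → ℝ → ℝ}
    {r : ℝ → ℝ} (hP : ThrOf (tgs (lst hn)) S (fun _ => P)) (hr : RateOf S (lst hn) r) {Q : ℝ}
    (hQ1 : Q < 1) : ∃ (T : PCl n) (P' : ℝ → ℝ → ℝ),
      (∀ (τ : ℝ) (J : ℕ) (F : Fam n J) (A : F.Ω → Prop), T.St τ J F A →
        (SqC S (lst hn) (1 - Q)).St τ J F A) ∧
      ClX s d al g₀ 2 0 N T ∧ ThrOf (tgs (lst hn)) T (fun _ => P') ∧
      RateOf T (lst hn) (fun x => r (max 0 (x - (1 - Q)))) ∧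
      ∀ w w₁ : ℝ, 0 < w → w < w₁ → w₁ ≤ 1 → P' w w ≤ P w₁ w₁ + (1 - Q) := by
  have h1 := sq_clx hN hS (lst_ne (hn := hn)) (1 - Q)
  obtain ⟨T, P', h2, h3, h4⟩ := hasThr_tgs (lst hn) (SqC S (lst hn) (1 - Q)) h1.ne
  have e : (fun _ : (tgs (lst hn)).ι => P' ()) = P' := by
    funext u
    cases u
    rfl
  refine ⟨T, P' (), h3, h1.sub h2 h3, by rw [e]; exact h4, ?_, fun w w₁ hw hww hw1 => ?_⟩
  · exact (sq_rate (fun τ J F A hA => ⟨hS.pos τ J F A hA, (hS.mem τ J F A hA).2.2.2.2.1⟩) hr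
      hQ1).sub h3
  · exact sq_thr (by linarith) hP (by rw [e]; exact h4) h2 h3 hw hww hw1

/-- **Local statements for the class of the cut families.** -/
theorem sq_loc {Φ : (ℝ → ℝ → ℝ) → (ℝ → ℝ) → Prop} (h : LocN n Φ) (hn : 2 ≤ n)
    (hZ : ∀ k, 1 ≤ k → k < n → FZX k) (hal : 0 < al) (hg₀ : ∀ ε : ℝ, 0 < ε → 0 < g₀ ε)
    (hN : NumX s d) (hS : ClX s d al g₀ e K₀ N S) {P : ℝ → ℝ → ℝ}
    {r : ℝ → ℝ} (hP : ThrOf (tgs (lst hn)) S (fun _ => P)) (hr : RateOf S (lst hn) r) {Q : ℝ}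
    (hQ1 : Q < 1) : ∃ P' : ℝ → ℝ → ℝ, Φ P' (fun x => r (max 0 (x - (1 - Q)))) ∧
      Pool.LEV.Law P' ∧ (∀ a w, 0 ≤ w → w ≤ a → a ≤ 1 → a ≤ P' a w ∧ P' a w ≤ 1) ∧
      ∀ w w₁ : ℝ, 0 < w → w < w₁ → w₁ ≤ 1 → P' w w ≤ P w₁ w₁ + (1 - Q) := by
  obtain ⟨T, P', -, h2, h3, h4, h5⟩ := sq_num hn hN hS hP hr hQ1
  exact ⟨P', h hn hZ al g₀ s d hal hg₀ hN 2 0 N T (by norm_num) h2 P' _ h3 h4, h3.law (),
    fun a w h0 h1 h2 => ⟨h3.low () a w h0 h1 h2, h3.up () a w h0 h1 h2⟩, h5⟩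

end Pool.SQ
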